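import Pool.Agent.H7.LP.Targets5

/-!
# WRH: the induced homomorphism to the wreath product
-/

set_option autoImplicit false

open Set Filter Topology

namespace Pool.Agent.H12.LR

open Pool.Agent.H7.LP Pool.Agent.H54.LP Pool.Agent.H93.CP Pool.Agent.H7.LR

open Classical in
/-- the extension by `1` -/
noncomputable def ext1 {G K : Type} [Group G] [Group K] (H : Subgroup G) (π : H →* K) (g : G) : K :=
  if hg : g ∈ H then π ⟨g, hg⟩ else 1

lemma ext1_mem {G K : Type} [Group G] [Group K] (H : Subgroup G) (π : H →* K) (g : G)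
    (hg : g ∈ H) : ext1 H π g = π ⟨g, hg⟩ := by
  unfold ext1
  rw [dif_pos hg]

lemma ext1_mul {G K : Type} [Group G] [Group K] (H : Subgroup G) (π : H →* K) (g h : G)
    (hg : g ∈ H) (hh : h ∈ H) : ext1 H π (g * h) = ext1 H π g * ext1 H π h := by
  rw [ext1_mem H π g hg, ext1_mem H π h hh, ext1_mem H π (g * h) (H.mul_mem hg hh), ← map_mul]
  rfl

lemma ext1_one {G K : Type} [Group G] [Group K] (H : Subgroup G) (π : H →* K) :
    ext1 H π 1 = 1 := by
  rw [ext1_mem H π 1 H.one_mem]
  exact map_one π

lemma ext1_cont {G K : Type} [Group G] [TopologicalSpace G] [IsTopologicalGroup G] [Group K]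
    [TopologicalSpace K] (H : Subgroup G) (π : H →* K) (hH : IsOpen (H : Set G))
    (hπ : Continuous π) : Continuous (ext1 H π) := by
  rw [continuous_iff_continuousAt]
  intro g
  by_cases hg : g ∈ H
  · have h1 := hH.isOpenEmbedding_subtypeVal.continuousAt_iff (g := ext1 H π) (x := ⟨g, hg⟩)
    refine h1.1 ?_
    have h2 : (ext1 H π) ∘ (Subtype.val : ↥(H : Set G) → G) = fun h => π ⟨h.1, h.2⟩ := by
      funext h
      exact ext1_mem H π h.1 h.2
    rw [h2]
    exact hπ.continuousAt
  · have h1 : (fun _ : G => (1 : K)) =ᶠ[𝓝 g] ext1 H π := by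
      have h2 : (H : Set G)ᶜ ∈ 𝓝 g :=
        (Subgroup.isClosed_of_isOpen H hH).isOpen_compl.mem_nhds hg
      filter_upwards [h2] with x hx
      have h3 : x ∉ H := hx
      unfold ext1
      rw [dif_neg h3]
    exact continuousAt_const.congr h1

open Classical in
/-- a section with value `1` at `H` -/
noncomputable def sec {G : Type} [Group G] (H : Subgroup G) (x : G ⧸ H) : G :=
  if x = ((1 : G) : G ⧸ H) then 1 else x.out

lemma sec_one {G : Type} [Group G] (H : Subgroup G) : sec H ((1 : G) : G ⧸ H) = 1 := by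
  unfold sec
  rw [if_pos rfl]

lemma sec_mk {G : Type} [Group G] (H : Subgroup G) (x : G ⧸ H) :
    ((sec H x : G) : G ⧸ H) = x := by
  unfold sec
  split_ifs with h
  · exact h.symm
  · exact QuotientGroup.out_eq' x

lemma coc_mem {G : Type} [Group G] (H : Subgroup G) (g : G) (x : G ⧸ H) :
    (sec H (g • x))⁻¹ * g * sec H x ∈ H := by
  have h1 : ((sec H (g • x) : G) : G ⧸ H) = ((g * sec H x : G) : G ⧸ H) := by
    rw [sec_mk]
    conv_lhs => rw [← sec_mk H x]
    rfl
  rw [QuotientGroup.eq] at h1
  rw [mul_assoc]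
  exact h1

/-- the permutations -/
noncomputable def pm {G : Type} [Group G] (H : Subgroup G) (i : G ⧸ H → ℕ)
    (hi : Function.Injective i) : G →* Equiv.Perm ℕ := by
  classical
  exact (Equiv.Perm.extendDomainHom (Equiv.ofInjective i hi)).comp (MulAction.toPermHom G (G ⧸ H))

lemma pm_img {G : Type} [Group G] (H : Subgroup G) (i : G ⧸ H → ℕ)
    (hi : Function.Injective i) (g : G) (x : G ⧸ H) : pm H i hi g (i x) = i (g • x) := by
  classical
  have h1 := Equiv.Perm.extendDomain_apply_image (MulAction.toPerm g : Equiv.Perm (G ⧸ H))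
    (Equiv.ofInjective i hi) x
  exact h1

lemma pm_not {G : Type} [Group G] (H : Subgroup G) (i : G ⧸ H → ℕ)
    (hi : Function.Injective i) (g : G) (n : ℕ) (hn : n ∉ range i) : pm H i hi g n = n := by
  classical
  have h1 := Equiv.Perm.extendDomain_apply_not_subtype
    (MulAction.toPerm g : Equiv.Perm (G ⧸ H)) (Equiv.ofInjective i hi) (b := n) hn
  exact h1

lemma pm_symm {G : Type} [Group G] (H : Subgroup G) (i : G ⧸ H → ℕ)
    (hi : Function.Injective i) (g : G) : (pm H i hi g).symm = pm H i hi g⁻¹ := by
  rw [map_inv]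
  rfl

open Classical in
/-- the function part -/
noncomputable def fp {G K : Type} [Group G] [Group K] (H : Subgroup G) (π : H →* K)
    (i : G ⧸ H → ℕ) (g : G) (n : ℕ) : K :=
  if h : ∃ y, i y = n then
    ext1 H π ((sec H h.choose)⁻¹ * g * sec H (g⁻¹ • h.choose)) else 1

lemma fp_img {G K : Type} [Group G] [Group K] (H : Subgroup G) (π : H →* K)
    (i : G ⧸ H → ℕ) (hi : Function.Injective i) (g : G) (y : G ⧸ H) :
    fp H π i g (i y) = ext1 H π ((sec H y)⁻¹ * g * sec H (g⁻¹ • y)) := by
  have h1 : ∃ z, i z = i y := ⟨y, rfl⟩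
  have h2 : h1.choose = y := hi h1.choose_spec
  unfold fp
  rw [dif_pos h1, h2]

lemma fp_not {G K : Type} [Group G] [Group K] (H : Subgroup G) (π : H →* K)
    (i : G ⧸ H → ℕ) (g : G) (n : ℕ) (hn : n ∉ range i) : fp H π i g n = 1 := by
  unfold fp
  rw [dif_neg]
  exact hn

lemma fp_mul {G K : Type} [Group G] [Group K] (H : Subgroup G) (π : H →* K)
    (i : G ⧸ H → ℕ) (hi : Function.Injective i) (g h : G) (n : ℕ) :
    fp H π i (g * h) n = fp H π i g n * fp H π i h ((pm H i hi g).symm n) := by
  rw [pm_symm]
  by_cases hn : n ∈ range i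
  · obtain ⟨y, rfl⟩ := hn
    rw [pm_img, fp_img H π i hi, fp_img H π i hi, fp_img H π i hi, ← ext1_mul]
    · congr 1
      rw [mul_inv_rev, mul_smul]
      group
    · have h1 := coc_mem H g (g⁻¹ • y)
      rw [smul_inv_smul] at h1
      exact h1
    · have h1 := coc_mem H h (h⁻¹ • g⁻¹ • y)
      rw [smul_inv_smul] at h1
      exact h1
  · rw [pm_not H i hi _ n hn, fp_not H π i _ n hn, fp_not H π i _ n hn, fp_not H π i _ n hn,
      one_mul]

lemma fp_one {G K : Type} [Group G] [Group K] (H : Subgroup G) (π : H →* K)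
    (i : G ⧸ H → ℕ) (hi : Function.Injective i) (n : ℕ) : fp H π i 1 n = 1 := by
  by_cases hn : n ∈ range i
  · obtain ⟨y, rfl⟩ := hn
    rw [fp_img H π i hi, inv_one, one_smul, mul_one, inv_mul_cancel, ext1_one]
  · exact fp_not H π i _ n hn

/-- the homomorphism -/
noncomputable def wh {G K : Type} [Group G] [Group K] (H : Subgroup G) (π : H →* K)
    (i : G ⧸ H → ℕ) (hi : Function.Injective i) : G →* Wr K where
  toFun g := ⟨fp H π i g, pm H i hi g⟩
  map_one' := by
    apply Wr.ext
    · funext n
      exact fp_one H π i hi n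
    · exact map_one _
  map_mul' g h := by
    apply Wr.ext
    · funext n
      exact fp_mul H π i hi g h n
    · exact map_mul _ _ _

theorem pf_WRH : T_WRH := by
  intro G K _ _ _ _ _ _ _ H π hH hπ
  have hd : DiscreteTopology (G ⧸ H) := QuotientGroup.discreteTopology hH
  have hc : Countable (G ⧸ H) := by
    have h1 : (univ : Set (G ⧸ H)).Countable := by
      refine Set.PairwiseDisjoint.countable_of_isOpen (s := fun x : G ⧸ H =>
        (QuotientGroup.mk : G → G ⧸ H) ⁻¹' {x}) ?_ ?_ ?_
      · intro x _ y _ hxy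
        rw [Function.onFun, Set.disjoint_left]
        intro g hg hg'
        exact hxy (hg.symm.trans hg')
      · intro x _
        exact (isOpen_discrete _).preimage continuous_quotient_mk'
      · intro x _
        exact ⟨sec H x, sec_mk H x⟩
    exact Set.countable_univ_iff.1 h1
  obtain ⟨i, hi⟩ := exists_injective_nat (G ⧸ H)
  have hsm : ∀ x : G ⧸ H, Continuous fun g : G => g • x := by
    intro x
    have h1 : (fun g : G => g • x) = fun g => ((g * sec H x : G) : G ⧸ H) := by
      funext g
      conv_lhs => rw [← sec_mk H x]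
      rfl
    rw [h1]
    exact continuous_quotient_mk'.comp (continuous_id.mul continuous_const)
  have hpm : ∀ n, Continuous fun g : G => pm H i hi g n := by
    intro n
    by_cases hn : n ∈ range i
    · obtain ⟨x, rfl⟩ := hn
      have h1 : (fun g : G => pm H i hi g (i x)) = fun g => i (g • x) := by
        funext g
        exact pm_img H i hi g x
      rw [h1]
      exact continuous_of_discreteTopology.comp (hsm x)
    · have h1 : (fun g : G => pm H i hi g n) = fun _ => n := by
        funext g
        exact pm_not H i hi g n hn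
      rw [h1]
      exact continuous_const
  have hfp : ∀ n, Continuous fun g : G => fp H π i g n := by
    intro n
    by_cases hn : n ∈ range i
    · obtain ⟨y, rfl⟩ := hn
      have h1 : (fun g : G => fp H π i g (i y)) =
          fun g => ext1 H π ((sec H y)⁻¹ * g * sec H (g⁻¹ • y)) := by
        funext g
        exact fp_img H π i hi g y
      rw [h1]
      have h2 : Continuous fun g : G => sec H (g⁻¹ • y) :=
        (continuous_of_discreteTopology (f := sec H)).comp ((hsm y).comp continuous_inv)
      exact (ext1_cont H π hH hπ).comp ((continuous_const.mul continuous_id).mul h2)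
    · have h1 : (fun g : G => fp H π i g n) = fun _ => 1 := by
        funext g
        exact fp_not H π i g n hn
      rw [h1]
      exact continuous_const
  refine ⟨wh H π i hi, ?_, ?_⟩
  · refine continuous_induced_rng.2 ?_
    refine Continuous.prodMk (continuous_pi fun n => hfp n)
      (Continuous.prodMk (continuous_pi fun n => hpm n) (continuous_pi fun n => ?_))
    have h1 : (fun g : G => (pm H i hi g).symm n) = fun g => pm H i hi g⁻¹ n := by
      funext g
      rw [pm_symm]
    exact h1 ▸ (hpm n).comp continuous_inv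
  · intro V hV
    set n0 : ℕ := i ((1 : G) : G ⧸ H) with hn0
    have hc0 : Continuous fun a : Wr K => (a.f, (a.s : ℕ → ℕ), (a.s.symm : ℕ → ℕ)) :=
      continuous_induced_dom
    have hcf : Continuous fun a : Wr K => a.f n0 :=
      (continuous_apply n0).comp (continuous_fst.comp hc0)
    have hcs : Continuous fun a : Wr K => a.s n0 :=
      (continuous_apply n0).comp (continuous_fst.comp (continuous_snd.comp hc0))
    refine ⟨{w : Wr K | w.s n0 = n0} ∩ {w : Wr K | w.f n0 ∈ V}, inter_mem ?_ ?_, ?_⟩
    · exact (isOpen_discrete {n0}).preimage hcs |>.mem_nhds rfl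
    · exact hcf.continuousAt.preimage_mem_nhds hV
    · intro g hg
      have h1 : pm H i hi g n0 = n0 := hg.1
      have h2 : fp H π i g n0 ∈ V := hg.2
      rw [hn0, pm_img] at h1
      have h3 : g • ((1 : G) : G ⧸ H) = ((1 : G) : G ⧸ H) := hi h1
      have h4 : g ∈ H := by
        have h5 : ((g * 1 : G) : G ⧸ H) = ((1 : G) : G ⧸ H) := h3
        rw [mul_one] at h5
        have h6 := QuotientGroup.eq.1 h5.symm
        rw [inv_one, one_mul] at h6
        exact h6
      refine ⟨h4, ?_⟩
      have h5 : g⁻¹ • ((1 : G) : G ⧸ H) = ((1 : G) : G ⧸ H) := by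
        rw [inv_smul_eq_iff, h3]
      rw [hn0, fp_img H π i hi, h5, sec_one, inv_one, one_mul, mul_one, ext1_mem H π g h4] at h2
      exact h2

end Pool.Agent.H12.LR
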